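import Mathlib

/-! The automaton describing the support of the kernel function on the path tree of the ladder. -/

set_option autoImplicit false

namespace Pool.Agent.Q260.PT

/-- types of paths -/
inductive St | root | o0 | o1 | o2 | d0 | d1 | d2 | l1 | l2 | dead
  deriving DecidableEq

/-- forward, backward and cross steps -/
inductive Mv | F | B | X
  deriving DecidableEq

open St Mv

/-- transitions of the automaton, with factors -/
noncomputable def trans : St → Mv → St × ℝ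
  | root, F => (o0, 1)
  | o0, X => (d0, -(2 / 3))
  | o0, F => (o1, -(1 / 3))
  | d0, F => (o0, 1)
  | o1, X => (d1, 1)
  | o1, F => (o2, 1)
  | d1, B => (l1, -1)
  | o2, X => (d2, -1)
  | d2, F => (o0, 1)
  | d2, B => (l2, 1)
  | l2, B => (l1, -1)
  | _, _ => (dead, 0)

lemma trans_ne_root (s : St) (v : Mv) : (trans s v).1 ≠ root := by
  cases s <;> cases v <;> simp [trans]

/-- types at even distance from the root -/
def ev? : St → Bool
  | root | d0 | o1 | d2 | l1 => true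
  | _ => false

/-- weights for the energy bound -/
def kw : St → ℝ
  | root => 5
  | o0 => 2
  | d0 => 3
  | l1 => 1
  | d1 => 1
  | l2 => 1
  | d2 => 4
  | o2 => 4
  | o1 => 6
  | dead => 0

/-- value attached to a type and a number -/
noncomputable def val (s : St × ℝ) : ℝ := if ev? s.1 then s.2 else 0

lemma val_even {s : St} (h : ev? s = true) (v : Mv) (a : ℝ) :
    val ((trans s v).1, (trans s v).2 * a) = 0 := by
  cases s <;> cases v <;> simp_all [trans, val, ev?]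

lemma val_dead (v : Mv) (a : ℝ) :
    val ((trans dead v).1, (trans dead v).2 * a) = 0 := by
  cases v <;> simp [trans, val, ev?]

lemma parent_of_even {s : St} {v : Mv} (h : ev? (trans s v).1 = true) : ev? s = false := by
  cases s <;> cases v <;> simp_all [trans, ev?]

lemma parent_of_odd {s : St} {v : Mv} (h : ev? (trans s v).1 = false)
    (hd : (trans s v).1 ≠ dead) : ev? s = true ∧ (trans s v).2 = 1 := by
  cases s <;> cases v <;> simp_all [trans, ev?]

lemma kw_nonneg (s : St) : 0 ≤ kw s := by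
  cases s <;> simp [kw]

lemma energy {s : St} (hs : s ≠ root) (a : ℝ) :
    val (s, a) ^ 2 + (kw (trans s F).1 * ((trans s F).2 * a) ^ 2 +
      kw (trans s B).1 * ((trans s B).2 * a) ^ 2 +
      kw (trans s X).1 * ((trans s X).2 * a) ^ 2) ≤ kw s * a ^ 2 := by
  apply le_of_eq
  cases s <;> simp_all [trans, val, ev?, kw] <;> ring

/-- local pattern of visited vertices around the end `(m, r)` of a path -/
def Cond (P : ℤ → Bool → Prop) (s : St) (m : ℤ) (r : Bool) : Prop :=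
  P m r ∧
  match s with
  | root => False
  | o0 => 1 ≤ m ∧ ¬ P m !r ∧ P (m - 1) r ∧ P (m - 1) !r ∧ ∀ i > m, ∀ t, ¬ P i t
  | d0 => 1 ≤ m ∧ P m !r ∧ P (m - 1) r ∧ ∀ i > m, ∀ t, ¬ P i t
  | o1 => 2 ≤ m ∧ ¬ P m !r ∧ P (m - 1) r ∧ ¬ P (m - 1) !r ∧ P (m - 2) !r ∧
      ∀ i > m, ∀ t, ¬ P i t
  | d1 => 2 ≤ m ∧ P m !r ∧ ¬ P (m - 1) r ∧ P (m - 1) !r ∧ P (m - 2) r ∧
      ∀ i > m, ∀ t, ¬ P i t
  | l1 => 1 ≤ m ∧ P m !r ∧ P (m + 1) r ∧ P (m - 1) r
  | o2 => 3 ≤ m ∧ ¬ P m !r ∧ P (m - 1) r ∧ ¬ P (m - 1) !r ∧ P (m - 2) r ∧ ¬ P (m - 2) !r ∧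
      P (m - 3) !r ∧ ∀ i > m, ∀ t, ¬ P i t
  | d2 => 3 ≤ m ∧ P m !r ∧ ¬ P (m - 1) r ∧ P (m - 1) !r ∧ ¬ P (m - 2) r ∧ P (m - 2) !r ∧
      P (m - 3) r ∧ ∀ i > m, ∀ t, ¬ P i t
  | l2 => 2 ≤ m ∧ P m !r ∧ P (m + 1) r ∧ ¬ P (m - 1) r ∧ P (m - 1) !r ∧ P (m - 2) r
  | dead => True

lemma Cond.pos {P : ℤ → Bool → Prop} {s : St} {m : ℤ} {r : Bool} (h : Cond P s m r)
    (hs : s ≠ dead) : 1 ≤ m := by
  obtain ⟨_, h⟩ := h
  cases s <;> simp only at h hs <;> first | exact absurd rfl hs | omega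

section

variable {P P' : ℤ → Bool → Prop} {m : ℤ} {r : Bool}

lemma cross {s : St} (h : Cond P s m r) (hs : (trans s X).1 ≠ dead)
    (hP : ∀ i t, P' i t ↔ (i = m ∧ t = !r) ∨ P i t) : Cond P' (trans s X).1 m !r := by
  obtain ⟨h0, h⟩ := h
  cases s <;> simp only [trans, ne_eq, not_true_eq_false] at hs h ⊢ <;>
  · simp only [Cond, hP, Bool.not_not]
    cases r <;> simp_all <;> grind

lemma forward {s : St} (h : Cond P s m r) (hs : (trans s F).1 ≠ dead)
    (hP : ∀ i t, P' i t ↔ (i = m + 1 ∧ t = r) ∨ P i t) : Cond P' (trans s F).1 (m + 1) r := by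
  obtain ⟨h0, h⟩ := h
  have e1 : m + 1 - 1 = m := by ring
  have e2 : m + 1 - 2 = m - 1 := by ring
  have e3 : m + 1 - 3 = m - 2 := by ring
  cases s <;> simp only [trans, ne_eq, not_true_eq_false] at hs h ⊢ <;>
  · simp only [Cond, hP, e1, e2, e3]
    cases r <;> simp_all <;> grind

lemma backward {s : St} (h : Cond P s m r) (hs : (trans s B).1 ≠ dead)
    (hP : ∀ i t, P' i t ↔ (i = m - 1 ∧ t = r) ∨ P i t) : Cond P' (trans s B).1 (m - 1) r := by
  obtain ⟨h0, h⟩ := h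
  have e1 : m - 1 - 1 = m - 2 := by ring
  have e2 : m - 1 - 2 = m - 3 := by ring
  have e3 : m - 1 + 1 = m := by ring
  cases s <;> simp only [trans, ne_eq, not_true_eq_false] at hs h ⊢ <;>
  · simp only [Cond, hP, e1, e2, e3]
    cases r <;> simp_all <;> grind

end

end Pool.Agent.Q260.PT
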