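import Mathlib

/-! Path trees, matching measures and zero-positive vertices. -/

set_option autoImplicit false

namespace Pool.Agent.Q260.PT

open MeasureTheory

variable {V : Type}

/-- `G` with the vertex `u` deleted (all edges at `u` are removed; the component of every other
vertex is the same as in `G - u`). -/
def del (G : SimpleGraph V) (u : V) : SimpleGraph V where
  Adj x y := G.Adj x y ∧ x ≠ u ∧ y ≠ u
  symm := ⟨fun _ _ h => ⟨h.1.symm, h.2.2, h.2.1⟩⟩
  loopless := ⟨fun _ h => G.loopless.irrefl _ h.1⟩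

/-- A finite path of `G` starting at `o`, written as the list of its vertices from its last
vertex back to `o`. -/
def IsPathFrom (G : SimpleGraph V) (o : V) (p : List V) : Prop :=
  p.IsChain G.Adj ∧ p.Nodup ∧ p.getLast? = some o

/-- the finite paths of `G` starting at `o` -/
abbrev PathVertex (G : SimpleGraph V) (o : V) : Type := {p : List V // IsPathFrom G o p}

/-- the one-vertex path -/
def rootPath (G : SimpleGraph V) (o : V) : PathVertex G o :=
  ⟨[o], List.isChain_singleton _, List.nodup_singleton _, rfl⟩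

/-- The path tree `T(G,o)`: two paths are adjacent when one is obtained from the other by
adding one vertex at its end. -/
def pathTree (G : SimpleGraph V) (o : V) : SimpleGraph (PathVertex G o) where
  Adj p q := (∃ x, q.1 = x :: p.1) ∨ (∃ x, p.1 = x :: q.1)
  symm := ⟨fun _ _ h => h.symm⟩
  loopless := ⟨by
    rintro ⟨p, hp⟩ (⟨x, hx⟩ | ⟨x, hx⟩)
    · have := congrArg List.length hx
      simp at this
    · have := congrArg List.length hx
      simp at this⟩

/-- the adjacency operator: `(A f)(p)` is the sum of `f` over the neighbours of `p` -/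
noncomputable def adjOp {W : Type} (T : SimpleGraph W) (f : W → ℝ) (p : W) : ℝ :=
  ∑ᶠ q ∈ T.neighborSet p, f q

open Classical in
/-- `μ` is the matching measure `ν_{G,o}`: a probability measure on a bounded interval with
`∫ xⁿ dμ = ⟨Aⁿ χ_o, χ_o⟩ = (Aⁿ χ_o)(o)`, where `A` is the adjacency operator of the path
tree `T(G,o)`. -/
def IsMatchingMeasure (G : SimpleGraph V) (o : V) (μ : Measure ℝ) : Prop :=
  IsProbabilityMeasure μ ∧ (∃ D : ℝ, μ (Set.Icc (-D) D)ᶜ = 0) ∧
  ∀ n : ℕ, ∫ x, x ^ n ∂μ =
    ((adjOp (pathTree G o))^[n] (Pi.single (rootPath G o) 1)) (rootPath G o)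

/-- the vertex `u` is `0`-positive: for some neighbour `v` of `u` the matching measure of
`(G - u, v)` exists and has an atom at `0` -/
def ZeroPositive (G : SimpleGraph V) (u : V) : Prop :=
  ∃ v, G.Adj u v ∧ (∃ μ, IsMatchingMeasure (del G u) v μ) ∧
    ∀ μ, IsMatchingMeasure (del G u) v μ → 0 < μ {0}

/-- the ladder: the Cartesian product of the two-way infinite path and `K₂` -/
def ladder : SimpleGraph (ℤ × Bool) where
  Adj x y := (x.1 = y.1 ∧ x.2 ≠ y.2) ∨ (x.2 = y.2 ∧ |x.1 - y.1| = 1)
  symm := ⟨by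
    rintro x y (⟨h1, h2⟩ | ⟨h1, h2⟩)
    · exact Or.inl ⟨h1.symm, h2.symm⟩
    · exact Or.inr ⟨h1.symm, by rw [abs_sub_comm]; exact h2⟩⟩
  loopless := ⟨by
    rintro x (⟨_, h2⟩ | ⟨_, h2⟩)
    · exact h2 rfl
    · simp at h2⟩

end Pool.Agent.Q260.PT
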