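import Mathlib
import Pool.Agent.H751R3.Dart
import Pool.Agent.H792R3.SpecMeas

/-! Atoms at zero of the spectral measure of a dart operator. -/

set_option autoImplicit false

namespace Pool.Agent.Q260.PT

open MeasureTheory Pool.Agent.H751R3.Dart Filter Topology

section gen

variable {X : Type} [NormedAddCommGroup X] [InnerProductSpace ℂ X] [CompleteSpace X]

lemma spec_abs {H : X →L[ℂ] X} {x : ℝ} (hx : x ∈ spectrum ℝ H) : |x| ≤ ‖H‖ := by
  have h := spectrum.norm_le_norm_mul_of_mem hx
  have h1 : ‖(1 : X →L[ℂ] X)‖ ≤ 1 := ContinuousLinearMap.norm_id_le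
  calc |x| = ‖x‖ := rfl
    _ ≤ ‖H‖ * ‖(1 : X →L[ℂ] X)‖ := h
    _ ≤ ‖H‖ * 1 := by gcongr
    _ = ‖H‖ := mul_one _

lemma exists_measure (A : X →L[ℂ] X) (sa : IsSelfAdjoint A) (e : X) (he : ‖e‖ = 1) :
    ∃ μ : Measure ℝ, IsProbabilityMeasure μ ∧
    (∃ M : ℝ, μ (Set.Icc (-M) M)ᶜ = 0) ∧
    ∀ n : ℕ, ((∫ x, x ^ n ∂μ : ℝ) : ℂ) = inner ℂ e ((A ^ n) e) := by
  obtain ⟨μ, hfin, hμ⟩ := Pool.Agent.H792R3.exists_specMeas A sa e
  have hmom : ∀ n : ℕ, ((∫ x, x ^ n ∂μ : ℝ) : ℂ) = inner ℂ e ((A ^ n) e) := by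
    intro n
    have h1 := (hμ (fun x => x ^ n) (by fun_prop)).2
    rw [h1, cfc_pow_id (R := ℝ) A n sa]
  refine ⟨μ, ?_, ⟨‖A‖, ?_⟩, hmom⟩
  · have h1 := hmom 0
    simp only [pow_zero] at h1
    rw [integral_const, smul_eq_mul, mul_one] at h1
    have h2 : inner ℂ e ((1 : X →L[ℂ] X) e) = (1 : ℂ) := by
      have : inner ℂ e e = ((‖e‖ ^ 2 : ℝ) : ℂ) := by
        rw [inner_self_eq_norm_sq_to_K]; push_cast; rfl
      rw [he] at this
      simpa using this
    rw [h2] at h1
    have h3 : μ.real Set.univ = 1 := by exact_mod_cast h1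
    constructor
    rw [Measure.real] at h3
    rw [← ENNReal.toReal_eq_one_iff]
    exact h3
  · set g : ℝ → ℝ := fun x => max 0 (|x| - ‖A‖) with hg
    have hgc : Continuous g := by fun_prop
    obtain ⟨hint, h1⟩ := hμ g hgc
    have h2 : cfc g A = 0 := by
      rw [← cfc_zero (R := ℝ) A]
      apply cfc_congr
      intro x hx
      have := spec_abs hx
      simp only [hg, Pi.zero_apply]
      exact max_eq_left (by linarith)
    rw [h2] at h1
    have h3 : ∫ x, g x ∂μ = 0 := by
      have : inner ℂ e ((0 : X →L[ℂ] X) e) = (0 : ℂ) := by simp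
      rw [this] at h1
      exact_mod_cast h1
    rw [integral_eq_zero_iff_of_nonneg (f := g) (fun x => le_max_left _ _) hint] at h3
    have h4 : μ {x | ¬ g x = 0} = 0 := h3
    refine measure_mono_null ?_ h4
    intro x hx
    have hx' : ‖A‖ < |x| := by
      by_contra hcon
      push Not at hcon
      exact hx ⟨(abs_le.1 hcon).1, (abs_le.1 hcon).2⟩
    have h5 : 0 < g x := lt_max_of_lt_right (by linarith)
    exact h5.ne'

/-- polynomial moments -/
lemma poly_moment (A : X →L[ℂ] X) (e : X) (μ : Measure ℝ) [IsProbabilityMeasure μ] {M : ℝ}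
    (hM : μ (Set.Icc (-M) M)ᶜ = 0)
    (hmom : ∀ n : ℕ, ((∫ x, x ^ n ∂μ : ℝ) : ℂ) = inner ℂ e ((A ^ n) e)) (Q : Polynomial ℝ) :
    ((∫ x, Q.eval x ∂μ : ℝ) : ℂ) = inner ℂ e ((Polynomial.aeval A Q) e) := by
  have hint : ∀ R : Polynomial ℝ, Integrable (fun x => R.eval x) μ := by
    intro R
    have hc : Continuous fun x => R.eval x := R.continuous
    obtain ⟨C, hC⟩ := (isCompact_Icc (a := -M) (b := M)).exists_bound_of_continuousOn
      hc.continuousOn
    refine Integrable.of_bound hc.aestronglyMeasurable C ?_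
    have : ∀ᵐ x ∂μ, x ∈ Set.Icc (-M) M := by
      rw [ae_iff]; exact hM
    filter_upwards [this] with x hx
    exact hC x hx
  induction Q using Polynomial.induction_on' with
  | add p q hp hq =>
    rw [map_add (Polynomial.aeval A) p q]
    simp only [Polynomial.eval_add]
    rw [integral_add (hint p) (hint q), Complex.ofReal_add, hp, hq]
    rw [add_apply, inner_add_right]
  | monomial n a =>
    rw [Polynomial.aeval_monomial, ← Algebra.smul_def]
    simp only [Polynomial.eval_monomial]
    rw [integral_const_mul, Complex.ofReal_mul, hmom n]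
    have : (a • A ^ n) e = (a : ℂ) • ((A ^ n) e) := rfl
    rw [this, inner_smul_right]

/-- a kernel vector gives an atom at zero -/
theorem atom (A : X →L[ℂ] X) (sa : IsSelfAdjoint A) (e : X) (μ : Measure ℝ)
    [IsProbabilityMeasure μ] {M : ℝ} (hM : μ (Set.Icc (-M) M)ᶜ = 0)
    (hmom : ∀ n : ℕ, ((∫ x, x ^ n ∂μ : ℝ) : ℂ) = inner ℂ e ((A ^ n) e))
    (f : X) (hf : A f = 0) (hfo : inner ℂ f e = (1 : ℂ)) : 1 ≤ ‖f‖ ^ 2 * μ.real {0} := by
  -- enlarge `M` so that it is positive
  set K : ℝ := max M 1 with hK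
  have hK0 : 0 < K := lt_of_lt_of_le one_pos (le_max_right _ _)
  have hKM : μ (Set.Icc (-K) K)ᶜ = 0 := by
    refine measure_mono_null ?_ hM
    apply Set.compl_subset_compl.2
    exact Set.Icc_subset_Icc (neg_le_neg (le_max_left _ _)) (le_max_left _ _)
  have hae : ∀ᵐ x ∂μ, x ∈ Set.Icc (-K) K := by rw [ae_iff]; exact hKM
  let q : Polynomial ℝ := 1 - Polynomial.C (1 / K ^ 2) * Polynomial.X ^ 2
  have hq : ∀ x, q.eval x = 1 - x ^ 2 / K ^ 2 := by
    intro x
    simp only [q, Polynomial.eval_sub, Polynomial.eval_one, Polynomial.eval_mul,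
      Polynomial.eval_C, Polynomial.eval_pow, Polynomial.eval_X]
    ring
  have hkey : ∀ n : ℕ, 1 ≤ ‖f‖ ^ 2 * ∫ x, (1 - x ^ 2 / K ^ 2) ^ (2 * n) ∂μ := by
    intro n
    have hsym : ∀ R : Polynomial ℝ, ∀ x y : X,
        inner ℂ ((Polynomial.aeval A R) x) y = inner ℂ x ((Polynomial.aeval A R) y) := by
      intro R x y
      have hA : ∀ x y : X, inner ℂ (A x) y = inner ℂ x (A y) :=
        fun x y => (ContinuousLinearMap.isSelfAdjoint_iff_isSymmetric.1 sa) x y
      have hpow : ∀ (m : ℕ) (x y : X), inner ℂ ((A ^ m) x) y = inner ℂ x ((A ^ m) y) := by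
        intro m
        induction m with
        | zero => intro x y; rfl
        | succ m ih =>
          intro x y
          have h1 : (A ^ (m + 1)) x = (A ^ m) (A x) := by rw [pow_succ]; rfl
          have h2 : (A ^ (m + 1)) y = A ((A ^ m) y) := by rw [pow_succ']; rfl
          rw [h1, h2, ih, hA]
      induction R using Polynomial.induction_on' with
      | add p q hp hq =>
        rw [map_add (Polynomial.aeval A) p q]
        rw [add_apply, add_apply, inner_add_left, inner_add_right, hp, hq]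
      | monomial m a =>
        rw [Polynomial.aeval_monomial, ← Algebra.smul_def]
        have h1 : ∀ z, (a • A ^ m) z = (a : ℂ) • ((A ^ m) z) := fun z => rfl
        rw [h1, h1, inner_smul_left, inner_smul_right, hpow, Complex.conj_ofReal]
    set w : X := (Polynomial.aeval A (q ^ n)) e with hw
    have h1 : inner ℂ f w = (1 : ℂ) := by
      rw [hw, ← hsym]
      have h2 : (Polynomial.aeval A (q ^ n)) f = f := by
        have h3 : ∀ m : ℕ, (Polynomial.aeval A (q ^ m)) f = f := by
          intro m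
          induction m with
          | zero => simp
          | succ m ih =>
            rw [pow_succ, map_mul]
            have h4 : ((Polynomial.aeval A (q ^ m)) * (Polynomial.aeval A q)) f =
              (Polynomial.aeval A (q ^ m)) ((Polynomial.aeval A q) f) := rfl
            rw [h4]
            have h5 : (Polynomial.aeval A q) f = f := by
              simp only [q, map_sub, map_one, map_mul, Polynomial.aeval_C, map_pow,
                Polynomial.aeval_X]
              rw [← Algebra.smul_def]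
              have h6 : ((1 : X →L[ℂ] X) - (1 / K ^ 2) • A ^ 2) f =
                f - (1 / K ^ 2 : ℝ) • (A ^ 2) f := rfl
              rw [h6]
              have h7 : (A ^ 2) f = 0 := by
                have : (A ^ 2) f = A (A f) := by rw [pow_two]; rfl
                rw [this, hf, map_zero]
              rw [h7, smul_zero, sub_zero]
            rw [h5, ih]
        exact h3 n
      rw [h2, hfo]
    have h2 : inner ℂ w w = ((∫ x, (1 - x ^ 2 / K ^ 2) ^ (2 * n) ∂μ : ℝ) : ℂ) := by
      have h3 := poly_moment A e μ hM hmom (q ^ n * q ^ n)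
      have h4 : ∀ x, (q ^ n * q ^ n).eval x = (1 - x ^ 2 / K ^ 2) ^ (2 * n) := by
        intro x
        rw [Polynomial.eval_mul, Polynomial.eval_pow, hq, two_mul, pow_add]
      simp only [h4] at h3
      rw [h3, map_mul]
      have h5 : ((Polynomial.aeval A (q ^ n)) * (Polynomial.aeval A (q ^ n))) e =
        (Polynomial.aeval A (q ^ n)) w := rfl
      rw [h5, hw, hsym]
    have h3 : ‖w‖ ^ 2 = ∫ x, (1 - x ^ 2 / K ^ 2) ^ (2 * n) ∂μ := by
      rw [inner_self_eq_norm_sq_to_K] at h2
      have h5 : ((‖w‖ ^ 2 : ℝ) : ℂ) = ((∫ x, (1 - x ^ 2 / K ^ 2) ^ (2 * n) ∂μ : ℝ) : ℂ) := by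
        rw [← h2]; push_cast; rfl
      exact Complex.ofReal_injective h5
    have h4 : ‖(inner ℂ f w : ℂ)‖ ≤ ‖f‖ * ‖w‖ := norm_inner_le_norm f w
    rw [h1, norm_one] at h4
    rw [← h3, ← mul_pow]
    nlinarith [h4]
  have hlim : Tendsto (fun n : ℕ => ∫ x, (1 - x ^ 2 / K ^ 2) ^ (2 * n) ∂μ) atTop
      (𝓝 (∫ x, Set.indicator {(0 : ℝ)} (fun _ => (1 : ℝ)) x ∂μ)) := by
    apply tendsto_integral_of_dominated_convergence (fun _ => (1 : ℝ))
    · intro n
      exact (by fun_prop : Continuous fun x : ℝ =>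
        (1 - x ^ 2 / K ^ 2) ^ (2 * n)).aestronglyMeasurable
    · exact integrable_const _
    · intro n
      filter_upwards [hae] with x hx
      have h1 : x ^ 2 ≤ K ^ 2 := by
        apply sq_le_sq'
        · exact hx.1
        · exact hx.2
      have h2 : 0 ≤ 1 - x ^ 2 / K ^ 2 := by
        rw [sub_nonneg, div_le_one (by positivity)]
        exact h1
      have h3 : 1 - x ^ 2 / K ^ 2 ≤ 1 := by
        have : 0 ≤ x ^ 2 / K ^ 2 := by positivity
        linarith
      rw [Real.norm_eq_abs, abs_of_nonneg (pow_nonneg h2 _)]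
      exact pow_le_one₀ h2 h3
    · filter_upwards [hae] with x hx
      by_cases h0 : x = 0
      · subst h0
        simp
      · have h1 : x ^ 2 ≤ K ^ 2 := by
          apply sq_le_sq'
          · exact hx.1
          · exact hx.2
        have h2 : 0 ≤ 1 - x ^ 2 / K ^ 2 := by
          rw [sub_nonneg, div_le_one (by positivity)]
          exact h1
        have h3 : 1 - x ^ 2 / K ^ 2 < 1 := by
          have : 0 < x ^ 2 / K ^ 2 := by positivity
          linarith
        have h4 : Set.indicator {(0 : ℝ)} (fun _ => (1 : ℝ)) x = 0 := by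
          simp [h0]
        rw [h4]
        have h5 := tendsto_pow_atTop_nhds_zero_of_lt_one (pow_nonneg h2 2)
          (pow_lt_one₀ h2 h3 two_ne_zero)
        refine h5.congr ?_
        intro n
        rw [pow_mul]
  have hind : ∫ x, Set.indicator {(0 : ℝ)} (fun _ => (1 : ℝ)) x ∂μ = μ.real {0} := by
    rw [integral_indicator (measurableSet_singleton 0), setIntegral_const, smul_eq_mul, mul_one]
  rw [hind] at hlim
  exact ge_of_tendsto' (hlim.const_mul (‖f‖ ^ 2)) hkey

end gen

end Pool.Agent.Q260.PT
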