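import Mathlib
import Pool.Agent.Q260.PT.Defs
import Pool.Agent.Q260.PT.Meas

/-! The path tree as a dart system. -/

set_option autoImplicit false

namespace Pool.Agent.Q260.PT

open MeasureTheory Pool.Agent.H751R3.Dart

variable {V : Type} {G : SimpleGraph V} {o : V}

lemma IsPathFrom.ne_nil {p : List V} (h : IsPathFrom G o p) : p ≠ [] := by
  rintro rfl
  simp [IsPathFrom] at h

lemma isPathFrom_cons {x y : V} {l : List V} :
    IsPathFrom G o (x :: y :: l) ↔ G.Adj x y ∧ x ∉ y :: l ∧ IsPathFrom G o (y :: l) := by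
  unfold IsPathFrom
  rw [List.isChain_cons_cons, List.nodup_cons, List.getLast?_cons_cons]
  tauto

lemma isPathFrom_tail {x : V} {l : List V} (hl : l ≠ []) (h : IsPathFrom G o (x :: l)) :
    IsPathFrom G o l := by
  obtain ⟨y, l', rfl⟩ := List.exists_cons_of_ne_nil hl
  exact (isPathFrom_cons.1 h).2.2

variable {ι : Type} [Fintype ι] (m : ι → V → V)

/-- end vertex of a path -/
def hd (o : V) (p : List V) : V := p.headD o

/-- paths that can be extended by the move `i` -/
def US (m : ι → V → V) (G : SimpleGraph V) (o : V) (i : ι) : Set (PathVertex G o) :=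
  {p | IsPathFrom G o (m i (hd o p.1) :: p.1)}

/-- paths whose last step is the move `i` -/
def DS (m : ι → V → V) (G : SimpleGraph V) (o : V) (i : ι) : Set (PathVertex G o) :=
  {p | ∃ x l, p.1 = x :: l ∧ l ≠ [] ∧ x = m i (hd o l)}

open Classical in
/-- extend a path -/
noncomputable def up (m : ι → V → V) (i : ι) (p : PathVertex G o) : PathVertex G o :=
  if h : IsPathFrom G o (m i (hd o p.1) :: p.1) then ⟨_, h⟩ else p

open Classical in
/-- shorten a path -/
noncomputable def dn (p : PathVertex G o) : PathVertex G o :=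
  if h : IsPathFrom G o p.1.tail then ⟨_, h⟩ else p

lemma up_val {i : ι} {p : PathVertex G o} (h : p ∈ US m G o i) :
    (up m i p).1 = m i (hd o p.1) :: p.1 := by
  have h' : IsPathFrom G o (m i (hd o p.1) :: p.1) := h
  unfold up
  rw [dif_pos h']

lemma dn_val {p : PathVertex G o} {x : V} {l : List V} (h : p.1 = x :: l) (hl : l ≠ []) :
    (dn p).1 = l := by
  have h1 : IsPathFrom G o p.1.tail := by
    rw [h]
    apply isPathFrom_tail (x := x) hl
    rw [← h]; exact p.2
  unfold dn
  rw [dif_pos h1]
  change p.1.tail = l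
  rw [h]
  rfl

lemma up_mem {i : ι} {p : PathVertex G o} (h : p ∈ US m G o i) : up m i p ∈ DS m G o i :=
  ⟨_, _, up_val m h, p.2.ne_nil, rfl⟩

lemma dn_mem {i : ι} {p : PathVertex G o} (h : p ∈ DS m G o i) : dn p ∈ US m G o i := by
  obtain ⟨x, l, h1, h2, h3⟩ := h
  change IsPathFrom G o (m i (hd o (dn p).1) :: (dn p).1)
  rw [dn_val h1 h2, ← h3, ← h1]
  exact p.2

lemma dn_up {i : ι} {p : PathVertex G o} (h : p ∈ US m G o i) : dn (up m i p) = p :=
  Subtype.ext (dn_val (up_val m h) p.2.ne_nil)

lemma up_dn {i : ι} {p : PathVertex G o} (h : p ∈ DS m G o i) : up m i (dn p) = p := by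
  have h' := dn_mem m h
  obtain ⟨x, l, h1, h2, h3⟩ := h
  apply Subtype.ext
  rw [up_val m h', dn_val h1 h2, ← h3, ← h1]

/-- the dart system of the path tree -/
noncomputable def sys (m : ι → V → V) (G : SimpleGraph V) (o : V) :
    Sys (PathVertex G o) (ι × Bool) where
  S i := Bool.rec (DS m G o i.1) (US m G o i.1) i.2
  σ i := Bool.rec dn (up m i.1) i.2
  rev i := (i.1, !i.2)
  rev_rev := by rintro ⟨i, b⟩; simp
  mem := by
    rintro ⟨i, b⟩ p hp
    cases b with
    | true => exact up_mem m hp
    | false => exact dn_mem m hp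
  inv := by
    rintro ⟨i, b⟩ p hp
    cases b with
    | true => exact dn_up m hp
    | false => exact up_dn m hp

variable {m}

open Classical in
/-- shape of the adjacency operator at `p` -/
lemma adjOp_eq (hm : ∀ x y, G.Adj x y → ∃ i, x = m i y)
    (hinj : ∀ y i j, G.Adj (m i y) y → m i y = m j y → i = j) (f : PathVertex G o → ℝ)
    (p : PathVertex G o) :
    adjOp (pathTree G o) f p = ∑ i, (if p ∈ (sys m G o).S i then f ((sys m G o).σ i p) else 0) := by
  unfold adjOp
  set I : Finset (ι × Bool) := Finset.univ.filter (fun i => p ∈ (sys m G o).S i) with hI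
  have hset : (pathTree G o).neighborSet p = ((I.image fun i => (sys m G o).σ i p : Finset _) :
      Set (PathVertex G o)) := by
    ext q
    simp only [SimpleGraph.mem_neighborSet, Finset.coe_image, Set.mem_image, Finset.mem_coe, hI,
      Finset.mem_filter, Finset.mem_univ, true_and]
    constructor
    · rintro (⟨x, hx⟩ | ⟨x, hx⟩)
      · have hq : IsPathFrom G o (x :: p.1) := hx ▸ q.2
        obtain ⟨y, l, hyl⟩ := List.exists_cons_of_ne_nil p.2.ne_nil
        have hq' := hq
        rw [hyl] at hq'
        obtain ⟨i, hi⟩ := hm x y (isPathFrom_cons.1 hq').1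
        have hhd : hd o p.1 = y := by rw [hyl]; rfl
        have hU : p ∈ US m G o i := by
          change IsPathFrom G o (m i (hd o p.1) :: p.1)
          rw [hhd, ← hi]; exact hq
        refine ⟨(i, true), hU, ?_⟩
        apply Subtype.ext
        change (up m i p).1 = q.1
        rw [up_val m hU, hhd, ← hi, hx]
      · have hp : IsPathFrom G o (x :: q.1) := hx ▸ p.2
        obtain ⟨y, l, hyl⟩ := List.exists_cons_of_ne_nil q.2.ne_nil
        have hp' := hp
        rw [hyl] at hp'
        obtain ⟨i, hi⟩ := hm x y (isPathFrom_cons.1 hp').1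
        have hhd : hd o q.1 = y := by rw [hyl]; rfl
        have hD : p ∈ DS m G o i := ⟨x, q.1, hx, q.2.ne_nil, by rw [hhd, hi]⟩
        refine ⟨(i, false), hD, ?_⟩
        apply Subtype.ext
        change (dn p).1 = q.1
        exact dn_val hx q.2.ne_nil
    · rintro ⟨⟨i, b⟩, h, rfl⟩
      cases b with
      | true => exact Or.inl ⟨_, up_val m h⟩
      | false =>
        obtain ⟨x, l, h1, h2, h3⟩ := h
        right
        refine ⟨x, ?_⟩
        change p.1 = x :: (dn p).1
        rw [dn_val h1 h2, h1]
  rw [hset, finsum_mem_coe_finset, Finset.sum_image, Finset.sum_filter]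
  -- injectivity
  rintro ⟨i, b⟩ hi ⟨j, c⟩ hj hij
  simp only [hI, Finset.coe_filter, Finset.mem_univ, true_and, Set.mem_ofPred_eq] at hi hj
  cases b <;> cases c
  · obtain ⟨x, l, h1, h2, h3⟩ := hi
    obtain ⟨x', l', h1', h2', h3'⟩ := hj
    rw [h1] at h1'
    obtain ⟨rfl, rfl⟩ := List.cons.inj h1'
    obtain ⟨z, l', rfl⟩ := List.exists_cons_of_ne_nil h2
    have hp := p.2
    rw [h1] at hp
    have hadj := (isPathFrom_cons.1 hp).1
    simp only [hd, List.headD_cons] at h3 h3'
    have : i = j := by
      apply hinj z i j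
      · rw [← h3]; exact hadj
      · rw [← h3, ← h3']
    rw [this]
  · exfalso
    obtain ⟨x, l, h1, h2, h3⟩ := hi
    have h4 : (dn p).1.length = (up m j p).1.length :=
      congrArg (fun q : PathVertex G o => q.1.length) hij
    rw [dn_val h1 h2, up_val m hj, h1] at h4
    simp at h4
    omega
  · exfalso
    obtain ⟨x, l, h1, h2, h3⟩ := hj
    have h4 : (up m i p).1.length = (dn p).1.length :=
      congrArg (fun q : PathVertex G o => q.1.length) hij
    rw [dn_val h1 h2, up_val m hi, h1] at h4
    simp at h4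
    omega
  · have h4 : (up m i p).1 = (up m j p).1 := congrArg Subtype.val hij
    rw [up_val m hi, up_val m hj] at h4
    have h5 := (List.cons.inj h4).1
    obtain ⟨y, l, hyl⟩ := List.exists_cons_of_ne_nil p.2.ne_nil
    have hi' : IsPathFrom G o (m i (hd o p.1) :: p.1) := hi
    have hhd : hd o p.1 = y := by rw [hyl]; rfl
    rw [hyl] at hi'
    have hadj := (isPathFrom_cons.1 hi').1
    have : i = j := by
      apply hinj y i j
      · rw [← hhd]
        rw [hhd]
        rw [← hyl] at hadj
        rw [hhd] at hadj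
        exact hadj
      · rw [← hhd]; exact h5
    rw [this]

open Classical in
/-- the levels of the path tree -/
noncomputable def Lv (m : ι → V → V) (G : SimpleGraph V) (o : V) : ℕ → Finset (PathVertex G o)
  | 0 => {rootPath G o}
  | n + 1 => (Lv m G o n).biUnion fun p =>
      (Finset.univ.filter fun i => p ∈ US m G o i).image fun i => up m i p

lemma length_of_mem_Lv {n : ℕ} {p : PathVertex G o} (h : p ∈ Lv m G o n) :
    p.1.length = n + 1 := by
  classical
  induction n generalizing p with
  | zero =>
    simp only [Lv, Finset.mem_singleton] at h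
    subst h
    rfl
  | succ n ih =>
    simp only [Lv, Finset.mem_biUnion, Finset.mem_image, Finset.mem_filter, Finset.mem_univ,
      true_and] at h
    obtain ⟨q, hq, i, hi, rfl⟩ := h
    rw [up_val m hi, List.length_cons, ih hq]

lemma mem_Lv (hm : ∀ x y, G.Adj x y → ∃ i, x = m i y) (n : ℕ) (p : PathVertex G o)
    (h : p.1.length = n + 1) : p ∈ Lv m G o n := by
  classical
  induction n generalizing p with
  | zero =>
    simp only [Lv, Finset.mem_singleton]
    apply Subtype.ext
    obtain ⟨p, hp⟩ := p
    simp only at h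
    obtain ⟨x, rfl⟩ := List.length_eq_one_iff.1 h
    have := hp.2.2
    simp at this
    simp [rootPath, this]
  | succ n ih =>
    obtain ⟨x, l, hxl⟩ := List.exists_cons_of_ne_nil p.2.ne_nil
    have hl : l.length = n + 1 := by
      rw [hxl, List.length_cons] at h
      omega
    have hlne : l ≠ [] := by
      rintro rfl
      simp at hl
    obtain ⟨y, l', hyl⟩ := List.exists_cons_of_ne_nil hlne
    have hp := p.2
    rw [hxl, hyl] at hp
    obtain ⟨i, hi⟩ := hm x y (isPathFrom_cons.1 hp).1
    have hD : p ∈ DS m G o i := ⟨x, l, hxl, hlne, by rw [hyl, hi]; rfl⟩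
    simp only [Lv, Finset.mem_biUnion, Finset.mem_image, Finset.mem_filter, Finset.mem_univ,
      true_and]
    refine ⟨dn p, ih _ ?_, i, dn_mem m hD, up_dn m hD⟩
    rw [dn_val hxl hlne, hl]

open Classical in
lemma excess (hm : ∀ x y, G.Adj x y → ∃ i, x = m i y) {E K : PathVertex G o → ℝ}
    (hE : ∀ p, 0 ≤ E p) (hK : ∀ p, 0 ≤ K p)
    (h : ∀ p, E p + ∑ i : ι, (if p ∈ US m G o i then K (up m i p) else 0) ≤ K p) :
    Summable E := by
  have hstep : ∀ n, ∑ p ∈ Lv m G o (n + 1), K p + ∑ p ∈ Lv m G o n, E p ≤
      ∑ p ∈ Lv m G o n, K p := by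
    intro n
    have h1 : ∑ p ∈ Lv m G o (n + 1), K p ≤
        ∑ p ∈ Lv m G o n, ∑ i : ι, (if p ∈ US m G o i then K (up m i p) else 0) := by
      rw [Lv, Finset.sum_biUnion]
      · apply Finset.sum_le_sum
        intro p _
        rw [← Finset.sum_filter]
        apply Finset.sum_image_le_of_nonneg
        intro i _
        exact hK _
      · intro p _ q _ hpq
        rw [Function.onFun, Finset.disjoint_left]
        intro r hr hr'
        simp only [Finset.mem_image, Finset.mem_filter, Finset.mem_univ, true_and] at hr hr'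
        obtain ⟨i, hi, rfl⟩ := hr
        obtain ⟨j, hj, hij⟩ := hr'
        apply hpq
        rw [← dn_up m hi, ← dn_up m hj, hij]
    calc ∑ p ∈ Lv m G o (n + 1), K p + ∑ p ∈ Lv m G o n, E p
        ≤ ∑ p ∈ Lv m G o n, ∑ i : ι, (if p ∈ US m G o i then K (up m i p) else 0) +
          ∑ p ∈ Lv m G o n, E p := by linarith
      _ = ∑ p ∈ Lv m G o n,
          (E p + ∑ i : ι, (if p ∈ US m G o i then K (up m i p) else 0)) := by
          rw [Finset.sum_add_distrib]; ring
      _ ≤ ∑ p ∈ Lv m G o n, K p := Finset.sum_le_sum fun p _ => h p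
  have hacc : ∀ n, ∑ p ∈ Lv m G o n, K p + ∑ k ∈ Finset.range n, ∑ p ∈ Lv m G o k, E p ≤
      K (rootPath G o) := by
    intro n
    induction n with
    | zero => simp [Lv]
    | succ n ih =>
      rw [Finset.sum_range_succ]
      have := hstep n
      linarith
  apply summable_of_sum_le (c := K (rootPath G o)) hE
  intro s
  set N := s.sup fun p => p.1.length with hN
  have hsub : s ⊆ (Finset.range N).biUnion (Lv m G o) := by
    intro p hp
    have h1 : p.1.length ≤ N := Finset.le_sup (f := fun p : PathVertex G o => p.1.length) hp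
    have h2 : p.1.length ≠ 0 := by
      intro h0
      exact p.2.ne_nil (List.length_eq_zero_iff.1 h0)
    rw [Finset.mem_biUnion]
    exact ⟨p.1.length - 1, Finset.mem_range.2 (by omega), mem_Lv hm _ _ (by omega)⟩
  calc ∑ p ∈ s, E p ≤ ∑ p ∈ (Finset.range N).biUnion (Lv m G o), E p :=
        Finset.sum_le_sum_of_subset_of_nonneg hsub fun p _ _ => hE p
    _ = ∑ k ∈ Finset.range N, ∑ p ∈ Lv m G o k, E p := by
        apply Finset.sum_biUnion
        intro a _ b _ hab
        rw [Function.onFun, Finset.disjoint_left]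
        intro p hp hp'
        apply hab
        have h1 := length_of_mem_Lv hp
        have h2 := length_of_mem_Lv hp'
        omega
    _ ≤ K (rootPath G o) := by
        have h1 := hacc N
        have h2 : 0 ≤ ∑ p ∈ Lv m G o N, K p := Finset.sum_nonneg fun p _ => hK p
        linarith

open Classical in
/-- a square summable kernel function with value `1` at the root -/
theorem of_kernel (hm : ∀ x y, G.Adj x y → ∃ i, x = m i y)
    (hinj : ∀ y i j, G.Adj (m i y) y → m i y = m j y → i = j) (f : PathVertex G o → ℝ)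
    (hsum : Summable fun p => f p ^ 2) (hroot : f (rootPath G o) = 1)
    (hker : ∀ p, ∑ i, (if p ∈ (sys m G o).S i then f ((sys m G o).σ i p) else 0) = 0) :
    (∃ μ, IsMatchingMeasure G o μ) ∧ ∀ μ, IsMatchingMeasure G o μ → 0 < μ {0} := by
  set D := sys m G o with hD
  set r := rootPath G o with hr
  set e : L2 (PathVertex G o) := lp.single 2 r (1 : ℂ) with he
  have he_ap : ∀ x, e x = if x = r then 1 else 0 := by
    intro x
    rw [he, lp.single_apply]
    by_cases h : x = r
    · subst h; simp
    · simp [h, Pi.single_apply]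
  have hin : ∀ v : L2 (PathVertex G o), inner ℂ e v = v r := by
    intro v
    rw [lp.inner_eq_tsum, tsum_eq_single r]
    · simp [he_ap]
    · intro y hy
      simp [he_ap, hy]
  have hen : ‖e‖ = 1 := by
    have h1 : ‖e‖ ^ 2 = 1 := by
      have h2 : inner ℂ e e = ((‖e‖ : ℂ)) ^ 2 := inner_self_eq_norm_sq_to_K e
      rw [hin, he_ap, if_pos rfl] at h2
      have h3 : ((‖e‖ ^ 2 : ℝ) : ℂ) = ((1 : ℝ) : ℂ) := by rw [Complex.ofReal_pow, ← h2]; simp
      exact Complex.ofReal_injective h3
    nlinarith [norm_nonneg e]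
  have sa : IsSelfAdjoint D.op := by
    rw [ContinuousLinearMap.isSelfAdjoint_iff_isSymmetric]
    intro f g
    exact D.symm f g
  have hmom : ∀ (n : ℕ) (p : PathVertex G o), (D.op ^ n) e p =
      (((adjOp (pathTree G o))^[n] (Pi.single r 1) p : ℝ) : ℂ) := by
    intro n
    induction n with
    | zero =>
      intro p
      change e p = _
      rw [he_ap, Function.iterate_zero, id_eq, Pi.single_apply]
      split_ifs <;> simp
    | succ n ih =>
      intro p
      have h1 : (D.op ^ (n + 1)) e = D.op ((D.op ^ n) e) := by rw [pow_succ']; rfl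
      rw [h1, D.op_apply, Function.iterate_succ_apply', adjOp_eq hm hinj, Complex.ofReal_sum]
      refine Finset.sum_congr rfl fun i _ => ?_
      unfold cf
      by_cases h : p ∈ D.S i
      · rw [if_pos h, if_pos h, ih]
      · rw [if_neg h, if_neg h, Complex.ofReal_zero]
  constructor
  · obtain ⟨μ, h1, h2, h3⟩ := exists_measure D.op sa e hen
    refine ⟨μ, h1, h2, ?_⟩
    intro n
    have h4 := h3 n
    rw [hin, hmom n r] at h4
    exact Complex.ofReal_injective h4
  · rintro μ ⟨h1, ⟨M, h2⟩, h3⟩
    let F : L2 (PathVertex G o) := ⟨fun p => (f p : ℂ), mem_of_summable _ (by simpa using hsum)⟩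
    have hF : ∀ p, F p = (f p : ℂ) := fun p => rfl
    have hF0 : D.op F = 0 := by
      apply lp.ext
      funext p
      rw [D.op_apply]
      have h5 := hker p
      change _ = (0 : ℂ)
      rw [← Complex.ofReal_zero, ← h5]
      push_cast
      refine Finset.sum_congr rfl fun i _ => ?_
      unfold cf
      by_cases h : p ∈ D.S i
      · rw [if_pos h, if_pos h, hF]
      · rw [if_neg h, if_neg h]
        simp
    have hFe : inner ℂ F e = (1 : ℂ) := by
      rw [← inner_conj_symm, hin, hF, hroot]
      simp
    have h6 := atom D.op sa e μ h2 (by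
      intro n
      rw [hin, hmom n r, h3 n]) F hF0 hFe
    have h7 : 0 < μ.real {0} := by
      by_contra hcon
      push Not at hcon
      have : ‖F‖ ^ 2 * μ.real {0} ≤ 0 := mul_nonpos_of_nonneg_of_nonpos (by positivity) hcon
      linarith
    rw [Measure.real] at h7
    exact (ENNReal.toReal_pos_iff.1 h7).1

end Pool.Agent.Q260.PT
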