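import Mathlib
import Pool.Agent.Q260.PT.Defs
import Pool.Agent.Q260.PT.Dart
import Pool.Agent.Q260.PT.Auto

/-! The kernel function on the path tree of the ladder without a vertex. -/

set_option autoImplicit false

namespace Pool.Agent.Q260.PT

open St Mv

/-- the step from `y` to `x`, seen from column `c` -/
def mvt (c : ℤ) (y x : ℤ × Bool) : Mv :=
  if x.1 = y.1 then X else if |y.1 - c| < |x.1 - c| then F else B

/-- type and number of a path -/
noncomputable def tp (c : ℤ) : List (ℤ × Bool) → St × ℝ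
  | [] => (dead, 0)
  | [_] => (root, 1)
  | x :: y :: l => ((trans (tp c (y :: l)).1 (mvt c y x)).1,
      (trans (tp c (y :: l)).1 (mvt c y x)).2 * (tp c (y :: l)).2)

lemma tp_cons (c : ℤ) (x y : ℤ × Bool) (l : List (ℤ × Bool)) :
    tp c (x :: y :: l) = ((trans (tp c (y :: l)).1 (mvt c y x)).1,
      (trans (tp c (y :: l)).1 (mvt c y x)).2 * (tp c (y :: l)).2) := rfl

/-- the three moves -/
def mm (i : Fin 3) (y : ℤ × Bool) : ℤ × Bool :=
  if i = 0 then (y.1 + 1, y.2) else if i = 1 then (y.1 - 1, y.2) else (y.1, !y.2)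

lemma ladder_iff {x y : ℤ × Bool} : ladder.Adj x y ↔ ∃ i, x = mm i y := by
  constructor
  · rintro (⟨h1, h2⟩ | ⟨h1, h2⟩)
    · refine ⟨2, ?_⟩
      have : x.2 = !y.2 := by
        cases hx : x.2 <;> cases hy : y.2 <;> simp_all
      exact Prod.ext h1 this
    · rcases (abs_eq (by norm_num)).1 h2 with h | h
      · refine ⟨0, Prod.ext ?_ h1⟩
        simp [mm]; omega
      · refine ⟨1, Prod.ext ?_ h1⟩
        simp [mm]; omega
  · rintro ⟨i, rfl⟩
    fin_cases i
    · right; simp [mm]
    · right; simp [mm]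
    · left; simp [mm]

lemma mm_inj (y : ℤ × Bool) (i j : Fin 3) (h : mm i y = mm j y) : i = j := by
  have h1 := congrArg Prod.fst h
  have h2 := congrArg Prod.snd h
  fin_cases i <;> fin_cases j <;> simp [mm] at h1 h2 ⊢ <;> omega

section

variable (c : ℤ) (ε : Bool)

/-- visited vertices, in coordinates relative to the column `c` and the direction `σ` -/
def W (p : List (ℤ × Bool)) (σ : ℤ) (i : ℤ) (s : Bool) : Prop :=
  (c + σ * i, s) ∈ p ∨ (c + σ * i, s) = (c, ε)

lemma W_cons {p : List (ℤ × Bool)} {σ : ℤ} (hσ : σ = 1 ∨ σ = -1) (k : ℤ) (t : Bool) (i : ℤ)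
    (s : Bool) : W c ε ((c + σ * k, t) :: p) σ i s ↔ (i = k ∧ s = t) ∨ W c ε p σ i s := by
  unfold W
  rw [List.mem_cons, Prod.mk.injEq, or_assoc]
  have : c + σ * i = c + σ * k ↔ i = k := by
    rcases hσ with rfl | rfl <;> constructor <;> intro h <;> omega
  rw [this]

/-- the invariant -/
def Inv (p : List (ℤ × Bool)) : Prop :=
  match (tp c p).1 with
  | dead => True
  | root => p = [(c, !ε)]
  | s => ∃ σ m r, (σ = 1 ∨ σ = -1) ∧ p.head? = some (c + σ * m, r) ∧ Cond (W c ε p σ) s m r

variable {c ε}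

lemma inv_root {p : List (ℤ × Bool)} (h : Inv c ε p) (hs : (tp c p).1 = root) :
    p = [(c, !ε)] := by
  unfold Inv at h
  rw [hs] at h
  exact h

lemma inv_iff {p : List (ℤ × Bool)} (h1 : (tp c p).1 ≠ root) (h2 : (tp c p).1 ≠ dead) :
    Inv c ε p ↔ ∃ σ m r, (σ = 1 ∨ σ = -1) ∧ p.head? = some (c + σ * m, r) ∧
      Cond (W c ε p σ) (tp c p).1 m r := by
  unfold Inv
  cases hs : (tp c p).1 <;> simp_all

/-- classification of the steps out of column `m ≥ 1` -/
lemma steps {σ m : ℤ} {r : Bool} (hσ : σ = 1 ∨ σ = -1) (hm : 1 ≤ m) {x : ℤ × Bool}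
    (h : ladder.Adj x (c + σ * m, r)) :
    (x = (c + σ * m, !r) ∧ mvt c (c + σ * m, r) x = X) ∨
    (x = (c + σ * (m + 1), r) ∧ mvt c (c + σ * m, r) x = F) ∨
    (x = (c + σ * (m - 1), r) ∧ mvt c (c + σ * m, r) x = B) := by
  obtain ⟨i, rfl⟩ := ladder_iff.1 h
  have habs : ∀ k : ℤ, |c + σ * k - c| = |k| := by
    intro k
    rcases hσ with rfl | rfl
    · congr 1; ring
    · rw [← abs_neg]; congr 1; ring
  have hF : mvt c (c + σ * m, r) (c + σ * (m + 1), r) = F := by
    unfold mvt
    rw [if_neg, if_pos]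
    · simp only [habs]
      rw [abs_of_nonneg (by omega), abs_of_nonneg (by omega)]
      omega
    · simp only
      rcases hσ with rfl | rfl <;> omega
  have hB : mvt c (c + σ * m, r) (c + σ * (m - 1), r) = B := by
    unfold mvt
    rw [if_neg, if_neg]
    · simp only [habs]
      rw [abs_of_nonneg (by omega), abs_of_nonneg (by omega)]
      omega
    · simp only
      rcases hσ with rfl | rfl <;> omega
  fin_cases i
  · rcases hσ with rfl | rfl
    · right; left
      have : mm 0 (c + 1 * m, r) = (c + 1 * (m + 1), r) := by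
        simp [mm]; ring
      simp only [Fin.zero_eta, Fin.isValue, this]
      exact ⟨trivial, hF⟩
    · right; right
      have : mm 0 (c + -1 * m, r) = (c + -1 * (m - 1), r) := by
        simp [mm]; ring
      simp only [Fin.zero_eta, Fin.isValue, this]
      exact ⟨trivial, hB⟩
  · rcases hσ with rfl | rfl
    · right; right
      have : mm 1 (c + 1 * m, r) = (c + 1 * (m - 1), r) := by
        simp [mm]; ring
      simp only [Fin.mk_one, Fin.isValue, this]
      exact ⟨trivial, hB⟩
    · right; left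
      have : mm 1 (c + -1 * m, r) = (c + -1 * (m + 1), r) := by
        simp [mm]; ring
      simp only [Fin.mk_one, Fin.isValue, this]
      exact ⟨trivial, hF⟩
  · left
    refine ⟨rfl, ?_⟩
    unfold mvt
    rw [if_pos]
    rfl

/-- the sum over the three moves -/
lemma sum_moves {σ m : ℤ} {r : Bool} (hσ : σ = 1 ∨ σ = -1) (g : ℤ × Bool → ℝ) :
    ∑ i, g (mm i (c + σ * m, r)) = g (c + σ * (m + 1), r) + g (c + σ * (m - 1), r) +
      g (c + σ * m, !r) := by
  rw [Fin.sum_univ_three]
  rcases hσ with rfl | rfl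
  · have h1 : mm 0 (c + 1 * m, r) = (c + 1 * (m + 1), r) := by simp [mm]; ring
    have h2 : mm 1 (c + 1 * m, r) = (c + 1 * (m - 1), r) := by simp [mm]; ring
    have h3 : mm 2 (c + 1 * m, r) = (c + 1 * m, !r) := by simp [mm]
    rw [h1, h2, h3]
  · have h1 : mm 0 (c + -1 * m, r) = (c + -1 * (m - 1), r) := by simp [mm]; ring
    have h2 : mm 1 (c + -1 * m, r) = (c + -1 * (m + 1), r) := by simp [mm]; ring
    have h3 : mm 2 (c + -1 * m, r) = (c + -1 * m, !r) := by simp [mm]
    rw [h1, h2, h3]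
    ring

/-- the graph `ladder - (c, ε)` -/
abbrev GG (c : ℤ) (ε : Bool) : SimpleGraph (ℤ × Bool) := del ladder (c, ε)

lemma inv_step {x y : ℤ × Bool} {l : List (ℤ × Bool)} (h : Inv c ε (y :: l))
    (hadj : (GG c ε).Adj x y) (hx : x ∉ y :: l) : Inv c ε (x :: y :: l) := by
  by_cases hd : (tp c (x :: y :: l)).1 = dead
  · unfold Inv; rw [hd]; trivial
  have hd' : (trans (tp c (y :: l)).1 (mvt c y x)).1 ≠ dead := hd
  have hr : (tp c (x :: y :: l)).1 ≠ root := trans_ne_root _ _
  rw [inv_iff hr hd]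
  by_cases h1 : (tp c (y :: l)).1 = root
  · have h2 := inv_root h h1
    obtain ⟨rfl, rfl⟩ := List.cons.inj h2
    rw [h1] at hd'
    have hF : mvt c (c, !ε) x = F := by
      revert hd'
      cases mvt c (c, !ε) x <;> simp [trans]
    -- the first step
    obtain ⟨σ, hσ, rfl⟩ : ∃ σ : ℤ, (σ = 1 ∨ σ = -1) ∧ x = (c + σ * 1, !ε) := by
      obtain ⟨i, rfl⟩ := ladder_iff.1 hadj.1
      fin_cases i
      · exact ⟨1, Or.inl rfl, by simp [mm]⟩
      · exact ⟨-1, Or.inr rfl, by simp [mm]; ring⟩
      · exfalso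
        apply hadj.2.1
        simp [mm]
    refine ⟨σ, 1, !ε, hσ, rfl, ?_⟩
    rw [tp_cons, h1, hF]
    simp only [trans, Cond]
    have hW : ∀ i t, W c ε [(c, !ε)] σ i t ↔ i = 0 := by
      intro i t
      unfold W
      simp only [List.mem_singleton, Prod.mk.injEq]
      constructor
      · rintro (⟨h, _⟩ | ⟨h, _⟩) <;> rcases hσ with rfl | rfl <;> omega
      · rintro rfl
        cases t <;> cases ε <;> simp
    simp only [W_cons c ε hσ, hW]
    refine ⟨by simp, le_refl _, by simp, by simp, by simp, ?_⟩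
    intro i hi t
    push Not
    exact ⟨fun h => absurd h (by omega), by omega⟩
  · have h2 : (tp c (y :: l)).1 ≠ dead := by
      intro h0
      rw [h0] at hd'
      exact hd' (by cases mvt c y x <;> rfl)
    obtain ⟨σ, m, r, hσ, hy, hC⟩ := (inv_iff h1 h2).1 h
    rw [List.head?_cons, Option.some.injEq] at hy
    subst hy
    have hm := hC.pos h2
    rw [tp_cons]
    simp only
    rcases steps hσ hm hadj.1 with ⟨rfl, hmv⟩ | ⟨rfl, hmv⟩ | ⟨rfl, hmv⟩
    · rw [hmv] at hd' ⊢
      exact ⟨σ, m, !r, hσ, rfl, cross hC hd' (fun i t => W_cons c ε hσ m (!r) i t)⟩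
    · rw [hmv] at hd' ⊢
      exact ⟨σ, m + 1, r, hσ, rfl, forward hC hd' (fun i t => W_cons c ε hσ (m + 1) r i t)⟩
    · rw [hmv] at hd' ⊢
      exact ⟨σ, m - 1, r, hσ, rfl, backward hC hd' (fun i t => W_cons c ε hσ (m - 1) r i t)⟩

lemma inv_all (p : List (ℤ × Bool)) (hp : IsPathFrom (GG c ε) (c, !ε) p) : Inv c ε p := by
  induction p with
  | nil => exact absurd rfl hp.ne_nil
  | cons x l ih =>
    cases l with
    | nil =>
      have : x = (c, !ε) := by
        have := hp.2.2
        simpa using this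
      unfold Inv
      simp only [tp, this]
    | cons y l =>
      obtain ⟨h1, h2, h3⟩ := isPathFrom_cons.1 hp
      exact inv_step (ih h3) h1 h2

lemma mvF {σ m : ℤ} (r t : Bool) (hσ : σ = 1 ∨ σ = -1) (hm : 0 ≤ m) :
    mvt c (c + σ * m, r) (c + σ * (m + 1), t) = F := by
  have habs : ∀ k : ℤ, |c + σ * k - c| = |k| := by
    intro k
    rcases hσ with rfl | rfl
    · congr 1; ring
    · rw [← abs_neg]; congr 1; ring
  unfold mvt
  rw [if_neg, if_pos]
  · simp only [habs]
    rw [abs_of_nonneg (by omega), abs_of_nonneg (by omega)]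
    omega
  · simp only
    rcases hσ with rfl | rfl <;> omega

lemma mvB {σ m : ℤ} (r t : Bool) (hσ : σ = 1 ∨ σ = -1) (hm : 1 ≤ m) :
    mvt c (c + σ * m, r) (c + σ * (m - 1), t) = B := by
  have habs : ∀ k : ℤ, |c + σ * k - c| = |k| := by
    intro k
    rcases hσ with rfl | rfl
    · congr 1; ring
    · rw [← abs_neg]; congr 1; ring
  unfold mvt
  rw [if_neg, if_neg]
  · simp only [habs]
    rw [abs_of_nonneg (by omega), abs_of_nonneg (by omega)]
    omega
  · simp only
    rcases hσ with rfl | rfl <;> omega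

lemma mvX {σ m : ℤ} (r t : Bool) :
    mvt c (c + σ * m, r) (c + σ * m, t) = X := by
  unfold mvt
  rw [if_pos rfl]

lemma ne_u {y : ℤ × Bool} {l : List (ℤ × Bool)} (hp : IsPathFrom (GG c ε) (c, !ε) (y :: l)) :
    y ≠ (c, ε) := by
  cases l with
  | nil =>
    have : y = (c, !ε) := by
      have := hp.2.2
      simpa using this
    rw [this]
    simp
  | cons z l => exact (isPathFrom_cons.1 hp).1.2.1

lemma mem_US {p : PathVertex (GG c ε) (c, !ε)} {y : ℤ × Bool} {l : List (ℤ × Bool)}
    (h : p.1 = y :: l) (j : Fin 3) :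
    p ∈ US mm (GG c ε) (c, !ε) j ↔ (mm j y ∉ y :: l ∧ mm j y ≠ (c, ε)) := by
  have hhd : hd (c, !ε) p.1 = y := by rw [h]; rfl
  change IsPathFrom _ _ (mm j (hd (c, !ε) p.1) :: p.1) ↔ _
  rw [hhd, h, isPathFrom_cons]
  have hp := p.2
  rw [h] at hp
  constructor
  · rintro ⟨h1, h2, _⟩
    exact ⟨h2, h1.2.1⟩
  · rintro ⟨h1, h2⟩
    exact ⟨⟨ladder_iff.2 ⟨j, rfl⟩, h2, ne_u hp⟩, h1, hp⟩

open Classical in
/-- contribution of a child -/
noncomputable def gch (c : ℤ) (ε : Bool) (h : St × ℝ → ℝ) (p : List (ℤ × Bool))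
    (x : ℤ × Bool) : ℝ :=
  if x ∉ p ∧ x ≠ (c, ε) then h (tp c (x :: p)) else 0

open Classical in
lemma sum_up (h : St × ℝ → ℝ) {p : PathVertex (GG c ε) (c, !ε)} {y : ℤ × Bool}
    {l : List (ℤ × Bool)} (hp : p.1 = y :: l) (j : Fin 3) :
    (if p ∈ US mm (GG c ε) (c, !ε) j then h (tp c (up mm j p).1) else 0) =
      gch c ε h (y :: l) (mm j y) := by
  unfold gch
  have hhd : hd (c, !ε) p.1 = y := by rw [hp]; rfl
  by_cases hU : p ∈ US mm (GG c ε) (c, !ε) j
  · rw [if_pos hU, if_pos ((mem_US hp j).1 hU), up_val mm hU, hhd, hp]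
  · rw [if_neg hU, if_neg (fun h => hU ((mem_US hp j).2 h))]

open Classical in
lemma sum_dn (h : St × ℝ → ℝ) {p : PathVertex (GG c ε) (c, !ε)} {x y : ℤ × Bool}
    {l : List (ℤ × Bool)} (hp : p.1 = x :: y :: l) :
    ∑ j, (if p ∈ DS mm (GG c ε) (c, !ε) j then h (tp c (dn p).1) else 0) =
      h (tp c (y :: l)) := by
  have hpp := p.2
  rw [hp] at hpp
  obtain ⟨j, hj⟩ := ladder_iff.1 (isPathFrom_cons.1 hpp).1.1
  rw [Finset.sum_eq_single j]
  · rw [if_pos, dn_val hp (by simp)]
    exact ⟨x, y :: l, hp, by simp, hj⟩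
  · intro i _ hi
    rw [if_neg]
    rintro ⟨x', l', h1, h2, h3⟩
    rw [hp] at h1
    obtain ⟨rfl, rfl⟩ := List.cons.inj h1
    apply hi
    apply mm_inj y
    rw [← hj, h3]
    rfl
  · intro h0
    exact absurd (Finset.mem_univ _) h0

lemma sum_dn_root {p : PathVertex (GG c ε) (c, !ε)}
    {x : ℤ × Bool} (hp : p.1 = [x]) (j : Fin 3) : p ∉ DS mm (GG c ε) (c, !ε) j := by
  rintro ⟨x', l', h1, h2, h3⟩
  rw [hp] at h1
  obtain ⟨rfl, rfl⟩ := List.cons.inj h1
  exact h2 rfl

lemma gch_val {p : List (ℤ × Bool)} {y x : ℤ × Bool} {l : List (ℤ × Bool)} (hp : p = y :: l)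
    (h0 : val ((trans (tp c (y :: l)).1 (mvt c y x)).1,
      (trans (tp c (y :: l)).1 (mvt c y x)).2 * (tp c (y :: l)).2) = 0) :
    gch c ε val p x = 0 := by
  subst hp
  unfold gch
  split_ifs
  · rw [tp_cons]; exact h0
  · rfl

lemma gch_W {σ i : ℤ} {s : Bool} {p : List (ℤ × Bool)} (h : ¬ W c ε p σ i s)
    (g : St × ℝ → ℝ) : gch c ε g p (c + σ * i, s) = g (tp c ((c + σ * i, s) :: p)) := by
  unfold gch
  unfold W at h
  push Not at h
  rw [if_pos ⟨h.1, h.2⟩]

/-- the sum over the children -/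
lemma children {p : List (ℤ × Bool)} (hp : IsPathFrom (GG c ε) (c, !ε) p) {y : ℤ × Bool}
    {l : List (ℤ × Bool)} (hyl : p = y :: l) :
    ∑ j, gch c ε val (y :: l) (mm j y) =
      if ev? (tp c p).1 then 0 else (if (tp c p).1 = dead then 0 else - (tp c p).2) := by
  have hinv := inv_all p hp
  subst hyl
  by_cases he : ev? (tp c (y :: l)).1 = true
  · rw [if_pos he]
    apply Finset.sum_eq_zero
    intro j _
    exact gch_val rfl (val_even he _ _)
  · rw [if_neg he]
    by_cases hd : (tp c (y :: l)).1 = dead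
    · rw [if_pos hd]
      apply Finset.sum_eq_zero
      intro j _
      apply gch_val rfl
      rw [hd]
      exact val_dead _ _
    · rw [if_neg hd]
      have hr : (tp c (y :: l)).1 ≠ root := by
        intro h0
        rw [h0] at he
        exact he rfl
      obtain ⟨σ, m, r, hσ, hy, hC⟩ := (inv_iff hr hd).1 hinv
      rw [List.head?_cons, Option.some.injEq] at hy
      subst hy
      have hm := hC.pos hd
      rw [sum_moves hσ]
      have hC2 := hC.2
      have hF := mvF (c := c) r r hσ (by omega : 0 ≤ m)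
      have hB := mvB (c := c) r r hσ hm
      have hX := mvX (c := c) (σ := σ) (m := m) r (!r)
      cases hs : (tp c ((c + σ * m, r) :: l)).1 with
      | root => exact absurd hs hr
      | dead => exact absurd hs hd
      | d0 => rw [hs] at he; exact absurd rfl he
      | o1 => rw [hs] at he; exact absurd rfl he
      | d2 => rw [hs] at he; exact absurd rfl he
      | l1 => rw [hs] at he; exact absurd rfl he
      | o0 =>
        rw [hs] at hC2
        simp only at hC2
        rw [gch_W (hC2.2.2.2.2 (m + 1) (by omega) r), gch_W hC2.2.1, tp_cons, tp_cons, hF, hX, hs,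
          gch_val rfl (by rw [hB, hs]; simp [trans, val, ev?])]
        simp [trans, val, ev?]
        ring
      | d1 =>
        rw [hs] at hC2
        simp only at hC2
        rw [gch_W hC2.2.2.1, tp_cons, hB, hs,
          gch_val rfl (by rw [hF, hs]; simp [trans, val, ev?]),
          gch_val rfl (by rw [hX, hs]; simp [trans, val, ev?])]
        simp [trans, val, ev?]
      | o2 =>
        rw [hs] at hC2
        simp only at hC2
        rw [gch_W hC2.2.1, tp_cons, hX, hs,
          gch_val rfl (by rw [hF, hs]; simp [trans, val, ev?]),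
          gch_val rfl (by rw [hB, hs]; simp [trans, val, ev?])]
        simp [trans, val, ev?]
      | l2 =>
        rw [hs] at hC2
        simp only at hC2
        rw [gch_W hC2.2.2.2.1, tp_cons, hB, hs,
          gch_val rfl (by rw [hF, hs]; simp [trans, val, ev?]),
          gch_val rfl (by rw [hX, hs]; simp [trans, val, ev?])]
        simp [trans, val, ev?]

/-- the parent of a dead path has value zero -/
lemma parent_of_dead {x y : ℤ × Bool} {l : List (ℤ × Bool)}
    (hp : IsPathFrom (GG c ε) (c, !ε) (x :: y :: l)) (hd : (tp c (x :: y :: l)).1 = dead) :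
    val (tp c (y :: l)) = 0 := by
  obtain ⟨h1, h2, h3⟩ := isPathFrom_cons.1 hp
  have hinv := inv_all _ h3
  unfold val
  by_cases he : ev? (tp c (y :: l)).1 = true
  · exfalso
    rw [tp_cons] at hd
    simp only at hd
    have hxu : x ≠ (c, ε) := h1.2.1
    by_cases hr : (tp c (y :: l)).1 = root
    · have h4 := inv_root hinv hr
      obtain ⟨rfl, rfl⟩ := List.cons.inj h4
      obtain ⟨j, rfl⟩ := ladder_iff.1 h1.1
      rw [hr] at hd
      fin_cases j
      · have := mvF (c := c) (σ := 1) (m := 0) (!ε) (!ε) (Or.inl rfl) le_rfl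
        have e1 : ((c + 1 * 0, !ε) : ℤ × Bool) = (c, !ε) := by simp
        have e2 : ((c + 1 * (0 + 1), !ε) : ℤ × Bool) = mm 0 (c, !ε) := by simp [mm]
        rw [e1, e2] at this
        simp only [Fin.zero_eta, Fin.isValue, this, trans] at hd
        exact absurd hd (by simp)
      · have := mvF (c := c) (σ := -1) (m := 0) (!ε) (!ε) (Or.inr rfl) le_rfl
        have e1 : ((c + -1 * 0, !ε) : ℤ × Bool) = (c, !ε) := by simp
        have e2 : ((c + -1 * (0 + 1), !ε) : ℤ × Bool) = mm 1 (c, !ε) := by simp [mm]; ring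
        rw [e1, e2] at this
        simp only [Fin.mk_one, Fin.isValue, this, trans] at hd
        exact absurd hd (by simp)
      · apply hxu
        simp [mm]
    · have hd' : (tp c (y :: l)).1 ≠ dead := by
        intro h0
        rw [h0] at he
        exact absurd he (by simp [ev?])
      obtain ⟨σ, m, r, hσ, hy, hC⟩ := (inv_iff hr hd').1 hinv
      rw [List.head?_cons, Option.some.injEq] at hy
      subst hy
      have hm := hC.pos hd'
      have hC2 := hC.2
      have hno : ∀ i s, x = (c + σ * i, s) → ¬ W c ε ((c + σ * m, r) :: l) σ i s := by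
        rintro i s rfl (h | h)
        · exact h2 h
        · exact hxu h
      rcases steps hσ hm h1.1 with ⟨hx, hmv⟩ | ⟨hx, hmv⟩ | ⟨hx, hmv⟩
      · have hn := hno _ _ hx
        rw [hmv] at hd
        cases hs : (tp c ((c + σ * m, r) :: l)).1 with
        | root => exact hr hs
        | dead => exact hd' hs
        | o0 => rw [hs] at he; cases he
        | d1 => rw [hs] at he; cases he
        | o2 => rw [hs] at he; cases he
        | l2 => rw [hs] at he; cases he
        | o1 => rw [hs] at hd; cases hd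
        | d0 => rw [hs] at hC2; exact hn hC2.2.1
        | d2 => rw [hs] at hC2; exact hn hC2.2.1
        | l1 => rw [hs] at hC2; exact hn hC2.2.1
      · have hn := hno _ _ hx
        rw [hmv] at hd
        cases hs : (tp c ((c + σ * m, r) :: l)).1 with
        | root => exact hr hs
        | dead => exact hd' hs
        | o0 => rw [hs] at he; cases he
        | d1 => rw [hs] at he; cases he
        | o2 => rw [hs] at he; cases he
        | l2 => rw [hs] at he; cases he
        | o1 => rw [hs] at hd; cases hd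
        | d0 => rw [hs] at hd; cases hd
        | d2 => rw [hs] at hd; cases hd
        | l1 => rw [hs] at hC2; exact hn hC2.2.2.1
      · have hn := hno _ _ hx
        rw [hmv] at hd
        cases hs : (tp c ((c + σ * m, r) :: l)).1 with
        | root => exact hr hs
        | dead => exact hd' hs
        | o0 => rw [hs] at he; cases he
        | d1 => rw [hs] at he; cases he
        | o2 => rw [hs] at he; cases he
        | l2 => rw [hs] at he; cases he
        | o1 => rw [hs] at hC2; exact hn hC2.2.2.1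
        | d0 => rw [hs] at hC2; exact hn hC2.2.2.1
        | d2 => rw [hs] at hd; cases hd
        | l1 => rw [hs] at hC2; exact hn hC2.2.2.2
  · rw [if_neg he]

/-- the kernel function -/
noncomputable def ff (c : ℤ) (ε : Bool) (p : PathVertex (GG c ε) (c, !ε)) : ℝ := val (tp c p.1)

open Classical in
lemma kernel_eq (p : PathVertex (GG c ε) (c, !ε)) :
    ∑ i, (if p ∈ (sys mm (GG c ε) (c, !ε)).S i then
      ff c ε ((sys mm (GG c ε) (c, !ε)).σ i p) else 0) = 0 := by
  obtain ⟨y, l, hyl⟩ := List.exists_cons_of_ne_nil p.2.ne_nil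
  have h1 : ∑ i, (if p ∈ (sys mm (GG c ε) (c, !ε)).S i then
      ff c ε ((sys mm (GG c ε) (c, !ε)).σ i p) else 0) =
      ∑ j, (if p ∈ US mm (GG c ε) (c, !ε) j then val (tp c (up mm j p).1) else 0) +
      ∑ j, (if p ∈ DS mm (GG c ε) (c, !ε) j then val (tp c (dn p).1) else 0) := by
    rw [Fintype.sum_prod_type, ← Finset.sum_add_distrib]
    refine Finset.sum_congr rfl fun j _ => ?_
    rw [Fintype.sum_bool]
    rfl
  rw [h1, Finset.sum_congr rfl fun j _ => sum_up val hyl j, children p.2 hyl]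
  cases l with
  | nil =>
    rw [Finset.sum_eq_zero fun j _ => if_neg (sum_dn_root hyl j), add_zero]
    have : tp c p.1 = (root, 1) := by rw [hyl]; rfl
    rw [this]
    simp [ev?]
  | cons z l =>
    rw [sum_dn val hyl]
    have hp := p.2
    rw [hyl] at hp
    by_cases he : ev? (tp c p.1).1 = true
    · rw [if_pos he, zero_add]
      rw [hyl, tp_cons] at he
      have := parent_of_even he
      unfold val
      rw [if_neg (by rw [this]; simp)]
    · rw [if_neg he]
      by_cases hd : (tp c p.1).1 = dead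
      · rw [if_pos hd, zero_add]
        rw [hyl] at hd
        exact parent_of_dead hp hd
      · rw [if_neg hd]
        rw [hyl, tp_cons] at hd he ⊢
        obtain ⟨h2, h3⟩ := parent_of_odd (by simpa using he) hd
        unfold val
        rw [if_pos h2]
        simp only [h3]
        ring

lemma energy_eq (p : PathVertex (GG c ε) (c, !ε)) [∀ i, Decidable (p ∈ US mm (GG c ε) (c, !ε) i)] :
    ff c ε p ^ 2 + ∑ i : Fin 3, (if p ∈ US mm (GG c ε) (c, !ε) i then
      kw (tp c (up mm i p).1).1 * (tp c (up mm i p).1).2 ^ 2 else 0) ≤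
      kw (tp c p.1).1 * (tp c p.1).2 ^ 2 := by
  classical
  obtain ⟨y, l, hyl⟩ := List.exists_cons_of_ne_nil p.2.ne_nil
  have hinv := inv_all _ p.2
  have hle : ∑ i : Fin 3, (if p ∈ US mm (GG c ε) (c, !ε) i then
      kw (tp c (up mm i p).1).1 * (tp c (up mm i p).1).2 ^ 2 else 0) ≤
      ∑ i : Fin 3, kw (tp c (mm i y :: y :: l)).1 * (tp c (mm i y :: y :: l)).2 ^ 2 := by
    apply Finset.sum_le_sum
    intro i _
    by_cases hU : p ∈ US mm (GG c ε) (c, !ε) i
    · rw [if_pos hU, up_val mm hU]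
      have hhd : hd (c, !ε) p.1 = y := by rw [hyl]; rfl
      rw [hhd, hyl]
    · rw [if_neg hU]
      exact mul_nonneg (kw_nonneg _) (sq_nonneg _)
  refine (add_le_add_right hle _).trans ?_
  unfold ff
  rw [hyl] at hinv ⊢
  by_cases hr : (tp c (y :: l)).1 = root
  · have h4 := inv_root hinv hr
    obtain ⟨rfl, rfl⟩ := List.cons.inj h4
    have h0 : mvt c (c, !ε) (mm 0 (c, !ε)) = F := by
      have := mvF (c := c) (σ := 1) (m := 0) (!ε) (!ε) (Or.inl rfl) le_rfl
      have e1 : ((c + 1 * 0, !ε) : ℤ × Bool) = (c, !ε) := by simp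
      have e2 : ((c + 1 * (0 + 1), !ε) : ℤ × Bool) = mm 0 (c, !ε) := by simp [mm]
      rwa [e1, e2] at this
    have h1 : mvt c (c, !ε) (mm 1 (c, !ε)) = F := by
      have := mvF (c := c) (σ := -1) (m := 0) (!ε) (!ε) (Or.inr rfl) le_rfl
      have e1 : ((c + -1 * 0, !ε) : ℤ × Bool) = (c, !ε) := by simp
      have e2 : ((c + -1 * (0 + 1), !ε) : ℤ × Bool) = mm 1 (c, !ε) := by simp [mm]; ring
      rwa [e1, e2] at this
    have h2 : mvt c (c, !ε) (mm 2 (c, !ε)) = X := by
      unfold mvt
      rw [if_pos]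
      simp [mm]
    rw [Fin.sum_univ_three, tp_cons, tp_cons, tp_cons, h0, h1, h2]
    simp only [tp, trans, val, ev?, kw]
    norm_num
  · by_cases hd : (tp c (y :: l)).1 = dead
    · simp only [tp_cons, hd]
      have : ∀ v, trans dead v = (dead, 0) := by intro v; cases v <;> rfl
      simp only [this, kw, val, ev?]
      norm_num [hd, ev?]
    · obtain ⟨σ, m, r, hσ, hy, hC⟩ := (inv_iff hr hd).1 hinv
      rw [List.head?_cons, Option.some.injEq] at hy
      subst hy
      have hm := hC.pos hd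
      rw [sum_moves hσ (fun x => kw (tp c (x :: (c + σ * m, r) :: l)).1 *
        (tp c (x :: (c + σ * m, r) :: l)).2 ^ 2)]
      simp only [tp_cons, mvF (c := c) r r hσ (by omega : 0 ≤ m), mvB (c := c) r r hσ hm,
        mvX (c := c) (σ := σ) (m := m) r (!r)]
      exact energy hr _

open Classical in
/-- the atom at zero -/
theorem ladder_atom (c : ℤ) (ε : Bool) : (∃ μ, IsMatchingMeasure (GG c ε) (c, !ε) μ) ∧
    ∀ μ, IsMatchingMeasure (GG c ε) (c, !ε) μ → 0 < μ {0} := by
  have hm : ∀ x y, (GG c ε).Adj x y → ∃ i, x = mm i y := fun x y h => ladder_iff.1 h.1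
  refine of_kernel hm (fun y i j _ h => mm_inj y i j h) (ff c ε) ?_ ?_ kernel_eq
  · exact excess hm (K := fun p => kw (tp c p.1).1 * (tp c p.1).2 ^ 2) (fun p => sq_nonneg _)
      (fun p => mul_nonneg (kw_nonneg _) (sq_nonneg _)) (fun p => energy_eq p)
  · rfl

end

end Pool.Agent.Q260.PT
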